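import Pool.Agent.N144.EW.DetA
import Pool.Agent.N931.PN.Stm2

/-!
Project PN (helper931), LGV: four arms from a long excursion of vertices, in the bulk.
By helper75.
-/

set_option autoImplicit false

namespace Pool.Agent.N75.PN.LGV

open H974 H12S H389NS H984N H984P H342P Finset
open Pool.Agent.N116.EW Pool.Agent.N144.EW Pool.Agent.N931.PN

theorem sd_of_bdB {u c : Vtx} {m : ℕ} (h : u ∈ bdB c m) : (m : ℤ) ≤ sd u c := by
  obtain ⟨_, _, h3⟩ := h
  unfold sd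
  rcases h3 with h3 | h3
  · exact h3.symm.le.trans (le_max_left _ _)
  · exact h3.symm.le.trans (le_max_right _ _)

/-- the first step of a path off a block -/
theorem start_bd {H : Set Edg} {c u w : Vtx} {d : ℕ} (hu : sd u c ≤ d) (hw : (d : ℤ) < sd w c)
    (h : Reach (H \ ↑(blk c d)) u w) : u ∈ bdB c d ∧ ∃ g ∈ H, src g = u ∨ tgt g = u := by
  rcases Relation.ReflTransGen.cases_head h with rfl | ⟨u', hu', _⟩
  · exact absurd hu (not_le.2 hw)
  · have hcl : sd u c < d → sd u' c ≤ d := by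
      intro hb
      rw [sd_lt_iff] at hb
      rw [sd_le_iff]
      obtain ⟨⟨a, b, _ | _⟩, _, h | h⟩ := hu' <;>
      · simp only [src_mk, tgt_false, tgt_true] at h
        obtain ⟨h1, h2⟩ := h
        subst h1; subst h2
        simp only at hb ⊢
        omega
    obtain ⟨g, ⟨hg1, hg2⟩, hcase⟩ := hu'
    refine ⟨bdB_iff hu ?_, g, hg1, ?_⟩
    · by_contra hlt
      rw [not_le] at hlt
      apply hg2
      rw [Finset.mem_coe, blk_iff]
      rcases hcase with ⟨h1, h2⟩ | ⟨h1, h2⟩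
      · rw [h1, h2]; exact ⟨hu, hcl hlt⟩
      · rw [h1, h2]; exact ⟨hcl hlt, hu⟩
    · rcases hcase with ⟨h1, _⟩ | ⟨_, h2⟩
      · exact Or.inl h1
      · exact Or.inr h2

/-- a path from the block to a large distance crosses the annulus -/
theorem cross {H : Set Edg} {c x w : Vtx} {d R : ℕ} (hdR : d < R) (hx : sd x c ≤ d)
    (hw : (R : ℤ) ≤ sd w c) (h : Reach H x w) : ∃ u ∈ bdB c d, ∃ w' ∈ bdB c R,
      Reach (H ∩ ↑(blk c R \ blk c d)) u w' ∧ Reach H x w' ∧ ∃ g ∈ H, src g = u ∨ tgt g = u := by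
  have hdR' : (d : ℤ) < R := by exact_mod_cast hdR
  obtain ⟨w', hw'1, hw'2⟩ := exitBox (c := c) (m := R) hw h (hx.trans hdR'.le)
  obtain ⟨u, hu1, hu2⟩ := lastBox (c := c) (d := d) hx hw'2
  have h5 : (d : ℤ) < sd w' c := lt_of_lt_of_le hdR' (sd_of_bdB hw'1)
  obtain ⟨h6, g, hg, hgu⟩ := start_bd hu1 h5 hu2
  refine ⟨u, h6, w', hw'1, hu2.mono ?_, hw'2.mono Set.inter_subset_left, g, hg.1, hgu⟩
  rintro g ⟨⟨h1, h2⟩, h3⟩
  refine ⟨h1, ?_⟩
  rw [Finset.mem_coe] at h2 h3 ⊢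
  exact Finset.mem_sdiff.2 ⟨h2, h3⟩

/-- PN/LGV -/
theorem main : Pool.Agent.N931.PN.S_LGV := by
  intro D _ G B _ z d R ρ _ hdR hρ hbd hB hbad
  obtain ⟨e, heG, heF, x, v, _, hxv, _, hx, _, _, w, hw, hvw⟩ := hbad
  have hx' : Reach (D.cfg (G \ B)) (0, 0) x := hx
  have hρ' : (R : ℤ) + d + 4 ≤ ρ := by exact_mod_cast hρ
  have heB : e ∈ B := by
    by_contra h
    apply heF
    left
    rw [Finset.mem_coe]
    exact Finset.mem_sdiff.2 ⟨heG, h⟩
  have heb := blk_iff.1 (hB heB)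
  have hxz : sd x z ≤ d := by
    rcases hxv with ⟨h, _⟩ | ⟨h, _⟩
    · rw [h]; exact heb.1
    · rw [h]; exact heb.2
  have hvz : sd v z ≤ d := by
    rcases hxv with ⟨_, h⟩ | ⟨_, h⟩
    · rw [h]; exact heb.2
    · rw [h]; exact heb.1
  have hwz : (R : ℤ) ≤ sd w z := by
    rw [le_sd_iff] at hw ⊢
    rw [sd_le_iff] at hvz
    omega
  have h0 : (R : ℤ) ≤ sd (0, 0) z := zero_far (D := D) (by omega)
  have hnw : ∀ g ∈ blk z R, g ∉ D.wir := by
    intro g hg hgw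
    have h1 := bd_wir hgw
    have h2 := bd_near (D := D) (blk_iff.1 hg).1
    omega
  obtain ⟨u, hu, w1, hw1, hc1, hxw1, -⟩ := cross (by omega) hxz h0 (Reach.symm hx')
  obtain ⟨u', hu', w2, hw2, hc2, -, g, hg, hgu⟩ := cross (by omega) hvz hwz hvw
  refine ⟨u, hu, u', hu', ⟨w1, hw1, hc1.mono ?_⟩, ⟨w2, hw2, hc2.mono ?_⟩, ?_⟩
  · rintro g ⟨h1, h2⟩
    refine ⟨?_, h2⟩
    rw [Finset.mem_coe] at h2 ⊢
    rcases h1 with h1 | h1
    · rw [Finset.mem_coe] at h1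
      exact (Finset.mem_sdiff.1 h1).1
    · exact absurd h1 (hnw g (Finset.mem_sdiff.1 h2).1)
  · rintro g ⟨⟨h1, _, _⟩, h2⟩
    refine ⟨?_, h2⟩
    rw [Finset.mem_coe] at h2 ⊢
    rcases h1 with h1 | h1
    · exact h1
    · exact absurd h1 (hnw g (Finset.mem_sdiff.1 h2).1)
  · intro h
    have h1 : Reach (D.cfg (G \ B)) u u' := by
      refine h.mono ?_
      rintro g ⟨h1, h2⟩
      left
      rw [Finset.mem_coe] at h1 h2 ⊢
      exact Finset.mem_sdiff.2 ⟨h1, fun h3 => (Finset.mem_sdiff.1 h2).2 (hB h3)⟩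
    have h2 : Reach (D.cfg (G \ B)) (0, 0) u :=
      hx'.trans (hxw1.trans (Reach.symm (hc1.mono Set.inter_subset_left)))
    have h3 : u' ∈ D.clu (G \ B) := h2.trans h1
    rcases hgu with h4 | h4
    · exact hg.2.1 (h4 ▸ h3)
    · exact hg.2.2 (h4 ▸ h3)

end Pool.Agent.N75.PN.LGV
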